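import Pool.Agent.Y706.CH.Gon
import Pool.Agent.Q144.SU.B1
import Pool.Agent.Q144.SU.Crc
import Pool.Agent.Q144.SU.Ext
import Pool.Agent.Q103.FS.Core0

/-!
# Preperiodic points of bounded gonality of all non-isotrivial rational maps over function fields
-/

set_option autoImplicit false

namespace Pool.Agent.U723.SU

open Pool.Agent.W277.UH Pool.Agent.Y706.BI Pool.Agent.Y31.BI Polynomial Pool.Agent.Y706.CH7

universe u v

theorem main : Pool.Agent.Q41.SU.S_main.{u, v} :=
  Pool.Agent.Q144.SU.B.t_main Pool.Agent.Q103.FS.core0.{u} Pool.Agent.Q144.SU.crc.{u}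
    Pool.Agent.Q144.SU.ext.{u, v}

theorem gon : ∃ N : ℕ → ℕ → ℕ, ∀ (k : Type v) (K : Type u) [Field k] [CharZero k] [Field K]
    [Algebra k K] (D d : ℕ), 2 ≤ d → ∀ p q : K[X], IsCoprime p q →
    max p.natDegree q.natDegree = d →
    ¬ IsoAlg k (p.map (algebraMap K (AlgebraicClosure K)))
      (q.map (algebraMap K (AlgebraicClosure K))) d →
    {z : Option (AlgebraicClosure K) | (Set.range fun m : ℕ =>
        (ratP1 (p.map (algebraMap K (AlgebraicClosure K)))
          (q.map (algebraMap K (AlgebraicClosure K))) d)^[m] z).Finite ∧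
      ∃ t : IntermediateField.adjoin K {x | z = some x}, Transcendental k t ∧
        FiniteDimensional (IntermediateField.adjoin k {t})
          (IntermediateField.adjoin K {x | z = some x}) ∧
        Module.finrank (IntermediateField.adjoin k {t})
          (IntermediateField.adjoin K {x | z = some x}) ≤ D}.encard ≤ ((N D d : ℕ) : ℕ∞) := by
  obtain ⟨N, hN⟩ := main.{u, v}
  refine ⟨fun D d => (N D d + 1) * ((N D d + 1) * (2 * d ^ (N D d) + 1)), ?_⟩
  intro k K _ _ _ _ D d hd p q hco hmax hiso
  refine gonc D d (N D d) hd p q hco hmax ?_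
  intro E hE t ht hfd hD
  have hkEF : IsScalarTower k E (AlgebraicClosure K) := IsScalarTower.of_algebraMap_eq fun x => rfl
  have hmm : ∀ g : K[X], (g.map (algebraMap K E)).map (algebraMap E (AlgebraicClosure K)) =
      g.map (algebraMap K (AlgebraicClosure K)) := by
    intro g
    rw [Polynomial.map_map, ← IsScalarTower.algebraMap_eq]
  refine hN k E t ht hfd D d hD hd _ _
    (hco.map (Polynomial.mapRingHom (algebraMap K E))) (deg_map p q d hmax) ?_
  intro h
  apply hiso
  have h1 := isoAlg_map (IsScalarTower.toAlgHom k E (AlgebraicClosure K)) h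
  have h2 : ((IsScalarTower.toAlgHom k E (AlgebraicClosure K) :
      E →ₐ[k] AlgebraicClosure K) : E →+* AlgebraicClosure K) =
      algebraMap E (AlgebraicClosure K) := rfl
  rw [h2, hmm, hmm] at h1
  exact h1

end Pool.Agent.U723.SU
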